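import Pool.Agent.Helper86.NB.St

/-!
# Project NB, module PWC: convolution powers of lazy courteous measures
-/

set_option autoImplicit false

namespace Pool.Agent.Helper39.NB

open Filter Topology Pool.Agent.Helper86.NB Pool.Agent.Helper86.ML Pool.Agent.Helper67.Cour

variable {G : Type} [Group G]

/-- Powers of powers. -/
theorem pw_pw {ν : G → ℝ} (h : Prob ν) (k n : ℕ) : pw (pw ν k) n = pw ν (k * n) := by
  induction n with
  | zero => rw [Nat.mul_zero]; rfl
  | succ n ih => rw [pw_succ, ih, ← pw_add h, Nat.mul_succ, Nat.add_comm]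

/-- The support does not shrink, if `1` has positive mass. -/
theorem pw_pos_succ {ν : G → ℝ} (h : Prob ν) (h1 : 0 < ν 1) (n : ℕ) (x : G) (hx : 0 < pw ν n x) :
    0 < pw ν (n + 1) x := by
  have hs := summable_cv_left h.summable (pw_prob h n).summable x
  have h2 := hs.le_tsum 1 fun s _ => mul_nonneg (h.nonneg s) ((pw_prob h n).nonneg _)
  have h3 : ν 1 * pw ν n ((1 : G)⁻¹ * x) = ν 1 * pw ν n x := by simp
  rw [h3] at h2
  exact lt_of_lt_of_le (mul_pos h1 hx) h2

theorem pw_pos {ν : G → ℝ} (h : Prob ν) (h1 : 0 < ν 1) (x : G) (hx : 0 < ν x) (k : ℕ)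
    (hk : 1 ≤ k) : 0 < pw ν k x := by
  induction k, hk using Nat.le_induction with
  | base => rwa [pw_one]
  | succ n _ ih => exact pw_pos_succ h h1 n x ih

/-- The exponential moment of a convolution. -/
theorem exp_cv {S : Finset G} (hS : Subgroup.closure (S : Set G) = ⊤) {ζ : ℝ} (hζ : 0 < ζ)
    {p q : G → ℝ} (hp : Prob p) (hq : Prob q)
    (hp2 : Summable fun x => p x * Real.exp (ζ * wlen S x))
    (hq2 : Summable fun x => q x * Real.exp (ζ * wlen S x)) :
    Summable fun x => cv p q x * Real.exp (ζ * wlen S x) := by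
  have hs := summable_cv hp2 hq2
  refine Summable.of_nonneg_of_le (fun x => mul_nonneg (cv_nonneg hp.nonneg hq.nonneg x)
    (Real.exp_nonneg _)) (fun x => ?_) hs
  show (∑' s, p s * q (s⁻¹ * x)) * Real.exp (ζ * wlen S x) ≤
    ∑' s, (p s * Real.exp (ζ * wlen S s)) * (q (s⁻¹ * x) * Real.exp (ζ * wlen S (s⁻¹ * x)))
  rw [← tsum_mul_right]
  refine Summable.tsum_le_tsum (fun s => ?_)
    ((summable_cv_left hp.summable hq.summable x).mul_right _) (summable_cv_left hp2 hq2 x)
  have h1 : wlen S x ≤ wlen S s + wlen S (s⁻¹ * x) := by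
    have := wlen_mul_le hS s (s⁻¹ * x)
    rwa [mul_inv_cancel_left] at this
  have h2 : Real.exp (ζ * wlen S x) ≤
      Real.exp (ζ * wlen S s) * Real.exp (ζ * wlen S (s⁻¹ * x)) := by
    rw [← Real.exp_add]
    apply Real.exp_le_exp.2
    have h3 : (wlen S x : ℝ) ≤ wlen S s + wlen S (s⁻¹ * x) := by exact_mod_cast h1
    have := mul_le_mul_of_nonneg_left h3 hζ.le
    linarith
  calc p s * q (s⁻¹ * x) * Real.exp (ζ * wlen S x)
      ≤ p s * q (s⁻¹ * x) * (Real.exp (ζ * wlen S s) * Real.exp (ζ * wlen S (s⁻¹ * x))) :=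
        mul_le_mul_of_nonneg_left h2 (mul_nonneg (hp.nonneg _) (hq.nonneg _))
    _ = _ := by ring

theorem exp_pw {S : Finset G} (hS : Subgroup.closure (S : Set G) = ⊤) {ζ : ℝ} (hζ : 0 < ζ)
    {ν : G → ℝ} (hν : Prob ν) (hν2 : Summable fun x => ν x * Real.exp (ζ * wlen S x)) (n : ℕ) :
    Summable fun x => pw ν n x * Real.exp (ζ * wlen S x) := by
  induction n with
  | zero =>
    refine summable_of_ne_finset_zero (s := {1}) fun x hx => ?_
    have hx1 : x ≠ 1 := by simpa using hx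
    rw [pw_zero]
    simp [dl, hx1]
  | succ n ih => exact exp_cv hS hζ hν (pw_prob hν n) hν2 ih

theorem hPWC (h1 : StLAZ) (h2 : StBIN) (h3 : StTVL) (h4 : StITR) : StPWC := by
  intro G _ μ k hμ hk
  obtain ⟨hν, hH, hL⟩ := h1 G μ hμ
  have hP : Prob (lazy μ) := lazy_prob (Courteous.prob hμ)
  have hκ : Prob (pw (lazy μ) k) := pw_prob hP k
  have hκs : ∀ x, pw (lazy μ) k x⁻¹ = pw (lazy μ) k x := pw_symm hP hν.symm k
  have hone : 0 < lazy μ 1 := by
    have := hμ.nonneg 1
    rw [lazy_apply, dl_one]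
    linarith
  refine ⟨⟨hκ.nonneg, hκ.sum_one, hκs, ?_, ?_⟩, ?_, ?_⟩
  · -- adapted
    rw [eq_top_iff, ← hν.adapted]
    refine Subgroup.closure_mono fun x hx => ?_
    have hx1 : lazy μ x ≠ 0 := hx
    have hx2 : 0 < lazy μ x := lt_of_le_of_ne (hν.nonneg x) (Ne.symm hx1)
    exact (pw_pos hP hone x hx2 k hk).ne'
  · -- smooth
    obtain ⟨S, hS, ζ, hζ, hs⟩ := hν.smooth
    exact ⟨S, hS, ζ, hζ, exp_pw hS hζ hP hs k⟩
  · -- harmonic functions
    intro f hf hfh x
    have h5 := h4.1 G μ f hμ hf hfh k x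
    rw [h5, ← (Equiv.inv G).tsum_eq (fun y => (pw (lazy μ) k y : ℂ) * f (x * y))]
    refine tsum_congr fun s => ?_
    show (pw (lazy μ) k s⁻¹ : ℂ) * f (x * s⁻¹) = f (x * s⁻¹) * (pw (lazy μ) k s : ℂ)
    rw [hκs, mul_comm]
  · -- the Liouville property
    intro hLi f hf hfh x y
    have hT := h3 G (lazy μ) hP hν.symm (h2 G μ (Courteous.prob hμ)) (hL.2 hLi)
    obtain ⟨C, hC⟩ := hf
    have key : ∀ x g : G, f (x * g) = f x := by
      intro x g
      have h5 : ∀ n : ℕ, ‖f (x * g) - f x‖ ≤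
          C * l1 (tr g (pw (lazy μ) (k * n))) (pw (lazy μ) (k * n)) := by
        intro n
        have h6 := h4.2.2 G (pw (lazy μ) (k * n)) f C (pw_prob hP _) hC (fun z => by
          have h7 := h4.2.1 G (pw (lazy μ) k) f hκ hκs ⟨C, hC⟩ hfh n z
          rwa [pw_pw hP] at h7) x g
        exact h6
      have h8 : Tendsto (fun n : ℕ => k * n) atTop atTop :=
        tendsto_atTop_mono (fun n => (Nat.le_mul_of_pos_left n hk : n ≤ k * n)) tendsto_id
      have h9 := ((hT g).comp h8).const_mul C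
      rw [mul_zero] at h9
      have h10 : ‖f (x * g) - f x‖ ≤ 0 := ge_of_tendsto' h9 h5
      exact sub_eq_zero.1 (norm_le_zero_iff.1 h10)
    have h11 := key x (x⁻¹ * y)
    rw [mul_inv_cancel_left] at h11
    exact h11.symm

end Pool.Agent.Helper39.NB
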